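import Pool.Agent.Lib.H63G.P

/-!
# H63M, file Map: the trace argument for two carriers, the first one composed with a map

`trace_theta`: as `H56V.trace_pair`, with the first chain map given. `push`: composition of a chain map with a map of the
vertices (degenerate simplices go to zero). `trace_map`: both together.
-/

set_option autoImplicit false

namespace H63M

open Finset H98P H63F H56V

section

variable {E C : Type*} [Fintype E] [DecidableEq E] [Fintype C] [DecidableEq C]

/-- As `H56V.trace_pair`, with the first chain map given. -/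
theorem trace_theta [Nonempty E] (K : Finset E → Prop) (L : Finset C → Prop)
    (hK : Dn K) (hL : Dn L) (hK0 : K ∅) (hAK : AC K) (Om : Finset E → Finset C → Prop) (Xi : Finset C → Finset E → Prop)
    (hOL : ∀ G T, K G → G.Nonempty → Om G T → L T)
    (hθ : ∃ θ : Finset E → Finset C → ZMod 2, (∀ r, θ ∅ r = if r = ∅ then 1 else 0) ∧
      (∀ s, K s → s.Nonempty → ∀ r, θ s r ≠ 0 → Om s r ∧ r.card = s.card) ∧
      ∀ s, K s → s.Nonempty → ∀ r, bd (θ s) r = ∑ a ∈ s, θ (s.erase a) r)
    (hXK : ∀ T G, L T → T.Nonempty → Xi T G → K G)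
    (hXm : ∀ T T', T ⊆ T' → L T' → T.Nonempty → ∀ G, Xi T G → Xi T' G)
    (hX0 : ∀ T, L T → T.Nonempty → Xi T ∅)
    (hX : ∀ T, L T → T.Nonempty → AC (Xi T)) :
    ∃ (G : Finset E) (T : Finset C), G.Nonempty ∧ K G ∧ T.Nonempty ∧ Om G T ∧ Xi T G := by
  obtain ⟨ρ, ρ0, ρ1, ρ2⟩ := carriers (A := E) (B := E) (fun _ => True) (fun _ _ _ _ => trivial)
    (fun s r => K r ∧ (K s → r ⊆ s))
    (fun s t hst _ _ r hr => ⟨hr.1, fun ht => (hr.2 (hK s t hst ht)).trans hst⟩)
    (fun s _ _ => ⟨hK0, fun _ => Finset.empty_subset s⟩)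
    (fun s _ hs => by
      by_cases h : K s
      · have e : (fun r : Finset E => K r ∧ (K s → r ⊆ s)) = fun r => r ⊆ s := by
          funext r
          exact propext ⟨fun hr => hr.2 h, fun hr => ⟨hK r s hr h, fun _ => hr⟩⟩
        rw [e]
        exact ac_simplex hs
      · have e : (fun r : Finset E => K r ∧ (K s → r ⊆ s)) = K := by
          funext r
          exact propext ⟨fun hr => hr.1, fun hr => ⟨hr, fun hs' => absurd hs' h⟩⟩
        rw [e]
        exact hAK)
  obtain ⟨θ, θ0, θ1, θ2⟩ := hθ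
  obtain ⟨ψ, ψ0, ψ1, ψ2⟩ := carriers (A := C) (B := E) L hL Xi hXm hX0 hX
  have hne : ∀ s : Finset E, K s → s.Nonempty → ∀ T : Finset C, θ s T ≠ 0 → L T ∧ T.Nonempty := by
    intro s hKs hs T hT
    obtain ⟨h1, h2⟩ := θ1 s hKs hs T hT
    exact ⟨hOL s T hKs hs h1, Finset.card_pos.mp (by rw [h2]; exact Finset.card_pos.mpr hs)⟩
  have hneR : ∀ s : Finset E, s.Nonempty → ∀ R : Finset E, ρ s R ≠ 0 → K R ∧ R.Nonempty := by
    intro s hs R hR
    obtain ⟨h1, h2⟩ := ρ1 s trivial hs R hR
    exact ⟨h1.1, Finset.card_pos.mp (by rw [h2]; exact Finset.card_pos.mpr hs)⟩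
  -- the composite of the second and the third chain map
  have hg0 : ∀ r : Finset E, ∑ T, θ ∅ T * ψ T r = if r = ∅ then 1 else 0 := by
    intro r
    rw [Finset.sum_eq_single ∅]
    · rw [θ0, if_pos rfl, one_mul, ψ0]
    · intro T _ hT
      rw [θ0, if_neg hT, zero_mul]
    · intro h
      exact absurd (mem_univ _) h
  have hg : ∀ s : Finset E, K s → s.Nonempty → ∀ r : Finset E,
      bd (fun H => ∑ T, θ s T * ψ T H) r = ∑ a ∈ s, ∑ T, θ (s.erase a) T * ψ T r := by
    intro s hKs hs r
    have e1 : bd (fun H => ∑ T, θ s T * ψ T H) r = ∑ T, θ s T * bd (ψ T) r := by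
      rw [bd_sum]
      refine Finset.sum_congr rfl fun T _ => ?_
      simp only [bd, Finset.mul_sum]
    have e2 : ∑ T, θ s T * bd (ψ T) r = ∑ T, θ s T * ∑ a ∈ T, ψ (T.erase a) r := by
      refine Finset.sum_congr rfl fun T _ => ?_
      by_cases hT : θ s T = 0
      · rw [hT, zero_mul, zero_mul]
      · obtain ⟨h1, h2⟩ := hne s hKs hs T hT
        rw [ψ2 T h1 h2 r]
    have e3 := pairing (fun T => ψ T r) (θ s)
    rw [e1, e2, ← e3]
    have e4 : ∀ T : Finset C, ψ T r * bd (θ s) T = ∑ a ∈ s, θ (s.erase a) T * ψ T r := by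
      intro T
      rw [θ2 s hKs hs T, Finset.mul_sum]
      exact Finset.sum_congr rfl fun a _ => mul_comm _ _
    rw [Finset.sum_congr rfl fun T _ => e4 T, Finset.sum_comm]
  obtain ⟨s, hs, hss⟩ := exists_diag (E := E) (fun G H => ∑ R, ρ G R * ∑ T, θ R T * ψ T H) (by
      intro r
      rw [Finset.sum_eq_single ∅]
      · rw [ρ0, if_pos rfl, one_mul, hg0]
      · intro R _ hR
        rw [ρ0, if_neg hR, zero_mul]
      · intro h
        exact absurd (mem_univ _) h) (by
      intro s hs r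
      have e1 : bd (fun H => ∑ R, ρ s R * ∑ T, θ R T * ψ T H) r =
          ∑ R, ρ s R * bd (fun H => ∑ T, θ R T * ψ T H) r := by
        rw [bd_sum]
        refine Finset.sum_congr rfl fun R _ => ?_
        simp only [bd, Finset.mul_sum]
      have e2 : ∑ R, ρ s R * bd (fun H => ∑ T, θ R T * ψ T H) r =
          ∑ R, ρ s R * ∑ a ∈ R, ∑ T, θ (R.erase a) T * ψ T r := by
        refine Finset.sum_congr rfl fun R _ => ?_
        by_cases hR : ρ s R = 0
        · rw [hR, zero_mul, zero_mul]
        · obtain ⟨h1, h2⟩ := hneR s hs R hR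
          rw [hg R h1 h2 r]
      have e3 := pairing (fun R => ∑ T, θ R T * ψ T r) (ρ s)
      rw [e1, e2, ← e3]
      have e4 : ∀ R : Finset E, (∑ T, θ R T * ψ T r) * bd (ρ s) R =
          ∑ a ∈ s, ρ (s.erase a) R * ∑ T, θ R T * ψ T r := by
        intro R
        rw [ρ2 s trivial hs R, Finset.mul_sum]
        exact Finset.sum_congr rfl fun a _ => mul_comm _ _
      rw [Finset.sum_congr rfl fun R _ => e4 R, Finset.sum_comm])
  obtain ⟨R, _, hR⟩ := Finset.exists_ne_zero_of_sum_ne_zero hss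
  have hR1 : ρ s R ≠ 0 := left_ne_zero_of_mul hR
  obtain ⟨T, _, hT⟩ := Finset.exists_ne_zero_of_sum_ne_zero (right_ne_zero_of_mul hR)
  have hT1 : θ R T ≠ 0 := left_ne_zero_of_mul hT
  have hT2 : ψ T s ≠ 0 := right_ne_zero_of_mul hT
  obtain ⟨hKR, hRn⟩ := hneR s hs R hR1
  obtain ⟨hLT, hTn⟩ := hne R hKR hRn T hT1
  obtain ⟨⟨_, hRs⟩, hcard⟩ := ρ1 s trivial hs R hR1
  have hOm1 := (θ1 R hKR hRn T hT1).1
  have hXi1 := (ψ1 T hLT hTn s hT2).1
  have hKs := hXK T s hLT hTn hXi1
  have hRs' : R = s := Finset.eq_of_subset_of_card_le (hRs hKs) hcard.ge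
  rw [hRs'] at hOm1
  exact ⟨s, T, hs, hKs, hTn, hOm1, hXi1⟩


end

/-- Composition of a chain map with a map of the vertices. -/
theorem push {E E' C : Type*} [Fintype E] [DecidableEq E] [Fintype E'] [DecidableEq E'] [Fintype C] [DecidableEq C]
    (f : E → E') (K : Finset E → Prop) (K' : Finset E' → Prop) (hK : ∀ s, K s → K' (s.image f))
    (Om : Finset E' → Finset C → Prop)
    (hθ : ∃ θ : Finset E' → Finset C → ZMod 2, (∀ r, θ ∅ r = if r = ∅ then 1 else 0) ∧
      (∀ s, K' s → s.Nonempty → ∀ r, θ s r ≠ 0 → Om s r ∧ r.card = s.card) ∧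
      ∀ s, K' s → s.Nonempty → ∀ r, bd (θ s) r = ∑ a ∈ s, θ (s.erase a) r) :
    ∃ θ : Finset E → Finset C → ZMod 2, (∀ r, θ ∅ r = if r = ∅ then 1 else 0) ∧
      (∀ s, K s → s.Nonempty → ∀ r, θ s r ≠ 0 → Om (s.image f) r ∧ r.card = s.card) ∧
      ∀ s, K s → s.Nonempty → ∀ r, bd (θ s) r = ∑ a ∈ s, θ (s.erase a) r := by
  classical
  obtain ⟨θ, θ0, θ1, θ2⟩ := hθ
  refine ⟨fun s => if Set.InjOn f s then θ (s.image f) else fun _ => 0, ?_, ?_, ?_⟩
  · intro r
    beta_reduce
    rw [if_pos (by simp), image_empty]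
    exact θ0 r
  · intro s hs hn r hr
    beta_reduce at hr
    by_cases h : Set.InjOn f s
    · rw [if_pos h] at hr
      have h1 := θ1 _ (hK s hs) (hn.image f) r hr
      rw [card_image_of_injOn h] at h1
      exact h1
    · rw [if_neg h] at hr
      exact absurd rfl hr
  · intro s hs hn r
    beta_reduce
    by_cases h : Set.InjOn f s
    · rw [if_pos h, θ2 _ (hK s hs) (hn.image f) r, sum_image h]
      refine sum_congr rfl fun a ha => ?_
      have h1 : Set.InjOn f (s.erase a : Finset E) := h.mono (by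
        rw [coe_subset]
        exact erase_subset _ _)
      rw [if_pos h1]
      congr 1
      ext x
      simp only [mem_erase, mem_image]
      constructor
      · rintro ⟨h2, b, hb, rfl⟩
        exact ⟨b, ⟨fun h3 => h2 (by rw [h3]), hb⟩, rfl⟩
      · rintro ⟨b, ⟨hba, hb⟩, rfl⟩
        exact ⟨fun h3 => hba (h hb ha h3), b, hb, rfl⟩
    · rw [if_neg h]
      have hbd : bd (fun _ : Finset C => (0 : ZMod 2)) r = 0 := by
        simp [bd]
      rw [hbd]
      symm
      have h2 : ∃ a ∈ s, ∃ b ∈ s, a ≠ b ∧ f a = f b := by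
        by_contra hcon
        push Not at hcon
        refine h fun a ha b hb hab => ?_
        by_contra hne
        exact hcon a ha b hb hne hab
      obtain ⟨a, ha, b, hb, hab, hf⟩ := h2
      have hz : ∀ c ∈ s, c ≠ a → c ≠ b →
          (if Set.InjOn f (s.erase c : Finset E) then θ ((s.erase c).image f) else fun _ => 0) r = 0 := by
        intro c hc hca hcb
        rw [if_neg]
        intro h3
        exact hab (h3 (by simp [ha, Ne.symm hca]) (by simp [hb, Ne.symm hcb]) hf)
      have hsplit : ∑ c ∈ s, (if Set.InjOn f (s.erase c : Finset E) then θ ((s.erase c).image f) else fun _ => 0) r =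
          (if Set.InjOn f (s.erase a : Finset E) then θ ((s.erase a).image f) else fun _ => 0) r +
          (if Set.InjOn f (s.erase b : Finset E) then θ ((s.erase b).image f) else fun _ => 0) r := by
        rw [← sum_pair hab (f := fun c => (if Set.InjOn f (s.erase c : Finset E) then θ ((s.erase c).image f)
          else fun _ => 0) r)]
        symm
        refine sum_subset (fun c hc => ?_) fun c hc hcn => ?_
        · rw [mem_insert, mem_singleton] at hc
          rcases hc with rfl | rfl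
          · exact ha
          · exact hb
        · rw [mem_insert, mem_singleton, not_or] at hcn
          exact hz c hc hcn.1 hcn.2
      rw [hsplit]
      have himg : (s.erase a).image f = (s.erase b).image f := by
        ext x
        simp only [mem_image, mem_erase]
        constructor
        · rintro ⟨c, ⟨hca, hc⟩, rfl⟩
          by_cases hcb : c = b
          · exact ⟨a, ⟨hab, ha⟩, by rw [hcb, hf]⟩
          · exact ⟨c, ⟨hcb, hc⟩, rfl⟩
        · rintro ⟨c, ⟨hcb, hc⟩, rfl⟩
          by_cases hca : c = a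
          · exact ⟨b, ⟨hab.symm, hb⟩, by rw [hca, hf]⟩
          · exact ⟨c, ⟨hca, hc⟩, rfl⟩
      have hinj : Set.InjOn f (s.erase a : Finset E) ↔ Set.InjOn f (s.erase b : Finset E) := by
        rw [← card_image_iff, ← card_image_iff, himg, card_erase_of_mem ha, card_erase_of_mem hb]
      by_cases h3 : Set.InjOn f (s.erase a : Finset E)
      · rw [if_pos h3, if_pos (hinj.1 h3), himg]
        exact CharTwo.add_self_eq_zero _
      · rw [if_neg h3, if_neg (fun h4 => h3 (hinj.2 h4)), add_zero]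

/-- THE TRACE ARGUMENT WITH A MAP. -/
theorem trace_map {E E' C : Type*} [Fintype E] [DecidableEq E] [Nonempty E] [Fintype E'] [DecidableEq E']
    [Fintype C] [DecidableEq C] (f : E → E') (K : Finset E → Prop) (K' : Finset E' → Prop) (L : Finset C → Prop)
    (hK : Dn K) (hK' : Dn K') (hL : Dn L) (hK0 : K ∅) (hAK : AC K) (hKK : ∀ s, K s → K' (s.image f))
    (Om : Finset E' → Finset C → Prop) (Xi : Finset C → Finset E → Prop)
    (hOL : ∀ G T, K' G → G.Nonempty → Om G T → L T)
    (hOm : ∀ G G', G ⊆ G' → K' G' → G.Nonempty → ∀ T, Om G T → Om G' T)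
    (hO0 : ∀ G, K' G → G.Nonempty → Om G ∅)
    (hO : ∀ G, K' G → G.Nonempty → HC (Om G) (G.card - 1))
    (hXK : ∀ T G, L T → T.Nonempty → Xi T G → K G)
    (hXm : ∀ T T', T ⊆ T' → L T' → T.Nonempty → ∀ G, Xi T G → Xi T' G)
    (hX0 : ∀ T, L T → T.Nonempty → Xi T ∅)
    (hX : ∀ T, L T → T.Nonempty → AC (Xi T)) :
    ∃ (G : Finset E) (T : Finset C), G.Nonempty ∧ K G ∧ T.Nonempty ∧ Om (G.image f) T ∧ Xi T G :=
  trace_theta K L hK hL hK0 hAK (fun s T => Om (s.image f) T) Xi
    (fun G T h1 h2 h3 => hOL _ T (hKK G h1) (h2.image f) h3)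
    (push f K K' hKK Om (carriersHC K' hK' Om hOm hO0 hO)) hXK hXm hX0 hX

end H63M
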